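import Mathlib
import Pool.Agent.W684.FM.Ambient
import Pool.Agent.U19.LPM.Dual

/-!
# `MP_2a4eb4_gt`, Q1: a positive answer under Martin's axiom

`L_p(X)` and `C_p(C_p(X))` are written exactly as in the frozen statement `S12933`.

(1) Martin's axiom for `ℵ₁` dense sets can be forced, preserving all cardinals.
(2) Under this axiom the answer to the question is positive.
(3) In ZFC, if `L_p(X)` is perfectly normal, then all finite powers of `X` have countable spread
and all their closed subsets are `G_δ`-sets.
(4) In ZFC the answer is positive for all `X` all of whose finite powers are Lindelöf, and for all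
`X` of cardinality less than the continuum.
-/

set_option autoImplicit false

namespace Pool.Agent.Results.MP_2a4eb4_gt.UnderMartin

open Cardinal Topology TopologicalSpace
open Pool.Agent.W684 Pool.Agent.W684.FM Pool.Agent.Helper669.Forcing

/-- Hereditarily separable spaces: every subset has a countable dense subset. -/
def HereditarilySeparable (Z : Type) [TopologicalSpace Z] : Prop :=
  ∀ A : Set Z, ∃ B ⊆ A, B.Countable ∧ A ⊆ closure B

/-- Hereditarily Lindelöf spaces: every family of open sets has a countable subfamily with the same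
union. -/
def HereditarilyLindelof (Z : Type) [TopologicalSpace Z] : Prop :=
  ∀ 𝒪 : Set (Set Z), (∀ O ∈ 𝒪, IsOpen O) → ∃ 𝒞 ⊆ 𝒪, 𝒞.Countable ∧ ⋃₀ 𝒞 = ⋃₀ 𝒪

/-- `L_p(X)` is perfectly normal. -/
def LpPerfectlyNormal (X : Type) [TopologicalSpace X] : Prop :=
  PerfectlyNormalSpace
    ↥(Submodule.span ℝ
      (Set.range (fun (x : X) (f : {f : X → ℝ // Continuous f}) => f.1 x)))

/-- `C_p(C_p(X))` is perfectly normal. -/
def CpCpPerfectlyNormal (X : Type) [TopologicalSpace X] : Prop :=
  PerfectlyNormalSpace {g : {f : X → ℝ // Continuous f} → ℝ // Continuous g}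

/-- **Main theorem.** (1) There is a notion of forcing which preserves all cardinals, and `ω₁`,
and forces Martin's axiom for `ℵ₁` dense sets; the forced form of the axiom is equivalent to the
usual one. (2) Under Martin's axiom for `ℵ₁` dense sets: for every Tychonoff space `X`, if `L_p(X)`
is perfectly normal, then `C_p(C_p(X))` is perfectly normal and even all its finite powers are
hereditarily Lindelöf; moreover all finite powers of `X` are hereditarily Lindelöf and hereditarily
separable, and all finite powers of `C_p(X)` are hereditarily separable. (3) In ZFC, if `L_p(X)` is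
perfectly normal, then every discrete subspace of a finite power of `X` is countable and every
closed subset of a finite power of `X` is a `G_δ`-set. (4) In ZFC, if `L_p(X)` is perfectly normal
and all finite powers of `X` are Lindelöf, or `X` has less than continuum many points, then
`C_p(C_p(X))` is perfectly normal. -/
theorem result :
    ((∃ (P : Type) (_ : Preorder P), Nonempty P ∧ ∀ p : P,
        p ∈ CardinalsPreserved.{0, 0} P ∧ p ∈ OmegaOnePreserved P ∧ p ∈ MartinHolds P Om1) ∧
      (MartinFor Om1 ↔ MartinAxiomCard ℵ₁)) ∧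
    (MartinAxiomCard ℵ₁ → ∀ (X : Type) [TopologicalSpace X] [T35Space X], LpPerfectlyNormal X →
      CpCpPerfectlyNormal X ∧
      (∀ n : ℕ, HereditarilyLindelof (Fin n → X) ∧ HereditarilySeparable (Fin n → X) ∧
        HereditarilySeparable (Fin n → {f : X → ℝ // Continuous f}) ∧
        HereditarilyLindelof (Fin n → {g : {f : X → ℝ // Continuous f} → ℝ // Continuous g}))) ∧
    (∀ (X : Type) [TopologicalSpace X] [T35Space X], LpPerfectlyNormal X →
      ∀ n : ℕ, (∀ s : Set (Fin n → X), DiscreteTopology ↥s → s.Countable) ∧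
        ∀ s : Set (Fin n → X), IsClosed s → IsGδ s) ∧
    (∀ (X : Type) [TopologicalSpace X] [T35Space X], LpPerfectlyNormal X →
      ((∀ n : ℕ, LindelofSpace (Fin n → X)) ∨ #X < 𝔠) → CpCpPerfectlyNormal X) := by
  refine ⟨⟨exists_forcing Om1, ?_⟩, ?_, ?_, ?_⟩
  · rw [martinFor_om1_iff, martinAxiomAleph1_iff]
  · intro hMA X _ _ h
    have hMA' : Pool.Agent.Results.MP_f6eb07_gt.PowersMA.MartinAxiomAlephOne :=
      fun P _ _ hP 𝒟 h𝒟 hd => hMA P hP 𝒟 h𝒟 hd
    have hX := Pool.Agent.U19.LPM.hlin_pow_lp hMA' h
    have h1 := Pool.Agent.U19.LPM.hsep_pow (fun n => (hX n).1)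
    have h2 := Pool.Agent.U19.LPM.hlin_Cp h1
    exact ⟨Pool.Agent.U19.LPM.perfectlyNormal_of_hlin (Pool.Agent.U19.LPM.hlin_one (h2 1)),
      fun n => ⟨(hX n).1, (hX n).2, h1 n, h2 n⟩⟩
  · intro X _ _ h n
    exact ⟨fun s hs => Pool.Agent.U19.LPM.spread_of_lp h n s hs,
      fun s hs => Pool.Agent.U19.LPM.gdelta_pow h n s hs⟩
  · intro X _ _ h hX
    rcases hX with hX | hX
    · have h0 := Pool.Agent.U19.LPM.hlin_pow_lp_of_lindelof h hX
      have h1 := Pool.Agent.U19.LPM.hsep_pow h0
      have h2 := Pool.Agent.U19.LPM.hlin_Cp h1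
      exact Pool.Agent.U19.LPM.perfectlyNormal_of_hlin (Pool.Agent.U19.LPM.hlin_one (h2 1))
    · exact (Pool.Agent.R594.Lp.clopen_main (Pool.Agent.U19.LPM.basis_of_zeroDimensional
        (Pool.Agent.Results.MP_f6eb07_gt.PowersMA.zeroDimensional_of_card hX)) h).2.1

end Pool.Agent.Results.MP_2a4eb4_gt.UnderMartin
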